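import Mathlib

/-!
# KR D2: partial derivatives of functions of two variables

Proofs.
* `analyticAt_dx`, `analyticAt_dy`: `AnalyticAt.fderiv`, then evaluation at a vector
  (`ContinuousLinearMap.apply`, a continuous linear map composed with an analytic one:
  `ContinuousLinearMap.comp_analyticAt`).
* `dx_congr`, `dy_congr`: `Filter.EventuallyEq.fderiv` (equality near `p` gives equality of the derivatives near `p`).
* `dx_mul`, `dy_mul`, `dx_add`, `dy_add`: near `p` the functions are differentiable (`AnalyticAt.eventually_analyticAt`,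
  `AnalyticAt.differentiableAt`), then `fderiv_fun_mul`, `fderiv_fun_add`.
* `dx_dy_comm`: symmetry of the second derivative: `ContDiffAt.isSymmSndFDerivAt` (with `minSmoothness ℂ 2`: over `ℂ` use
  the analytic version, `AnalyticAt.contDiffAt`), and `fderiv` of `fun u => fderiv ℂ f u w` is
  `fderiv ℂ (fderiv ℂ f) u · w` (`HasFDerivAt.clm_apply` or `fderiv_clm_apply`).
* `deriv_slice_x`, `deriv_slice_y`: chain rule for `x ↦ (x, b)`, resp. `y ↦ (a, y)`.
* `dx_comp`, `dy_comp`: chain rule `fderiv (f ∘ θ) u (1, 0) = fderiv f (θ u) (fderiv θ u (1, 0))` with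
  `fderiv θ u (1, 0) = (dx θ₁ u, dx θ₂ u)`, and linearity of `fderiv f (θ u)`: `(a, b) = a (1, 0) + b (0, 1)`.
* `iterate_dy_slice`: induction on `n` (for all points `p` at which `f` is analytic), `iteratedDeriv_succ`,
  `dy (dy^[n] f)`: near `p.2` one has `dy^[n] f (p.1, y) = iteratedDeriv n (f (p.1, ·)) y` because `f` is analytic at
  `(p.1, y)`; then `deriv_slice_y`.
-/

set_option autoImplicit false

open Topology Filter

noncomputable section

namespace Pool.Agent.H68.KR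

attribute [-instance] ProperSMul.toContinuousSMul

/-- The partial derivative in the first variable. -/
def dx (f : ℂ × ℂ → ℂ) (u : ℂ × ℂ) : ℂ := fderiv ℂ f u (1, 0)

/-- The partial derivative in the second variable. -/
def dy (f : ℂ × ℂ → ℂ) (u : ℂ × ℂ) : ℂ := fderiv ℂ f u (0, 1)

variable {f g : ℂ × ℂ → ℂ} {p : ℂ × ℂ}

theorem analyticAt_dx (hf : AnalyticAt ℂ f p) : AnalyticAt ℂ (dx f) p := by
  have h := hf.fderiv
  exact ((ContinuousLinearMap.apply ℂ ℂ ((1, 0) : ℂ × ℂ)).analyticAt _).comp h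

theorem analyticAt_dy (hf : AnalyticAt ℂ f p) : AnalyticAt ℂ (dy f) p := by
  have h := hf.fderiv
  exact ((ContinuousLinearMap.apply ℂ ℂ ((0, 1) : ℂ × ℂ)).analyticAt _).comp h

theorem analyticAt_iterate_dy (hf : AnalyticAt ℂ f p) (n : ℕ) : AnalyticAt ℂ (dy^[n] f) p := by
  induction n with
  | zero => simpa using hf
  | succ n ih =>
    rw [Function.iterate_succ_apply']
    exact analyticAt_dy ih

theorem dx_congr (h : ∀ᶠ u in 𝓝 p, f u = g u) : ∀ᶠ u in 𝓝 p, dx f u = dx g u := by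
  have h' : f =ᶠ[𝓝 p] g := h
  have h2 := h'.fderiv (𝕜 := ℂ)
  filter_upwards [h2] with u hu
  simp only [dx, hu]

theorem dy_congr (h : ∀ᶠ u in 𝓝 p, f u = g u) : ∀ᶠ u in 𝓝 p, dy f u = dy g u := by
  have h' : f =ᶠ[𝓝 p] g := h
  have h2 := h'.fderiv (𝕜 := ℂ)
  filter_upwards [h2] with u hu
  simp only [dy, hu]

theorem iterate_dy_congr (h : ∀ᶠ u in 𝓝 p, f u = g u) (n : ℕ) :
    ∀ᶠ u in 𝓝 p, (dy^[n] f) u = (dy^[n] g) u := by
  induction n with
  | zero => simpa using h
  | succ n ih =>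
    simp only [Function.iterate_succ_apply']
    exact dy_congr ih

theorem dy_add (hf : AnalyticAt ℂ f p) (hg : AnalyticAt ℂ g p) :
    ∀ᶠ u in 𝓝 p, dy (fun u => f u + g u) u = dy f u + dy g u := by
  filter_upwards [hf.eventually_analyticAt, hg.eventually_analyticAt] with u hu hv
  simp only [dy]
  rw [fderiv_fun_add hu.differentiableAt hv.differentiableAt]
  rfl

theorem dx_mul (hf : AnalyticAt ℂ f p) (hg : AnalyticAt ℂ g p) :
    ∀ᶠ u in 𝓝 p, dx (fun u => f u * g u) u = dx f u * g u + f u * dx g u := by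
  filter_upwards [hf.eventually_analyticAt, hg.eventually_analyticAt] with u hu hv
  simp only [dx]
  rw [fderiv_fun_mul hu.differentiableAt hv.differentiableAt]
  simp only [add_apply, smul_apply, smul_eq_mul]
  ring

theorem dy_mul (hf : AnalyticAt ℂ f p) (hg : AnalyticAt ℂ g p) :
    ∀ᶠ u in 𝓝 p, dy (fun u => f u * g u) u = dy f u * g u + f u * dy g u := by
  filter_upwards [hf.eventually_analyticAt, hg.eventually_analyticAt] with u hu hv
  simp only [dy]
  rw [fderiv_fun_mul hu.differentiableAt hv.differentiableAt]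
  simp only [add_apply, smul_apply, smul_eq_mul]
  ring

/-- Second derivatives as values of `fderiv (fderiv f)`. -/
private theorem D2_fderiv_apply (hf : AnalyticAt ℂ f p) (v w : ℂ × ℂ) :
    fderiv ℂ (fun u => fderiv ℂ f u w) p v = fderiv ℂ (fderiv ℂ f) p v w := by
  have h := hf.fderiv.differentiableAt
  have h1 : HasFDerivAt (fun u => fderiv ℂ f u w) ((ContinuousLinearMap.apply ℂ ℂ w).comp (fderiv ℂ (fderiv ℂ f) p)) p :=
    (ContinuousLinearMap.apply ℂ ℂ w).hasFDerivAt.comp p h.hasFDerivAt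
  rw [h1.fderiv]
  rfl

theorem dx_dy_comm (hf : AnalyticAt ℂ f p) : ∀ᶠ u in 𝓝 p, dx (dy f) u = dy (dx f) u := by
  filter_upwards [hf.eventually_analyticAt] with u hu
  have hs : IsSymmSndFDerivAt ℂ f u := by
    refine ContDiffAt.isSymmSndFDerivAt (n := minSmoothness ℂ 2) hu.contDiffAt le_rfl
  have h1 := D2_fderiv_apply hu (1, 0) (0, 1)
  have h2 := D2_fderiv_apply hu (0, 1) (1, 0)
  simp only [dx, dy]
  rw [show fderiv ℂ (dy f) u (1, 0) = fderiv ℂ (fun u => fderiv ℂ f u (0, 1)) u (1, 0) from rfl,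
    show fderiv ℂ (dx f) u (0, 1) = fderiv ℂ (fun u => fderiv ℂ f u (1, 0)) u (0, 1) from rfl, h1, h2]
  exact hs (1, 0) (0, 1)

theorem dx_iterate_dy_comm (hf : AnalyticAt ℂ f p) (n : ℕ) :
    ∀ᶠ u in 𝓝 p, dx (dy^[n] f) u = (dy^[n] (dx f)) u := by
  induction n with
  | zero => simp
  | succ n ih =>
    simp only [Function.iterate_succ_apply']
    have h1 := dx_dy_comm (analyticAt_iterate_dy hf n)
    have h2 := dy_congr ih
    filter_upwards [h1, h2] with u hu hv
    rw [hu, hv]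

theorem deriv_slice_x (hf : AnalyticAt ℂ f p) : deriv (fun x => f (x, p.2)) p.1 = dx f p := by
  have h1 : HasFDerivAt f (fderiv ℂ f p) (p.1, p.2) := hf.differentiableAt.hasFDerivAt
  have h2 : HasDerivAt (fun x : ℂ => (x, p.2)) ((1 : ℂ), (0 : ℂ)) p.1 :=
    (hasDerivAt_id p.1).prodMk (hasDerivAt_const p.1 p.2)
  have h3 := h1.comp_hasDerivAt p.1 h2
  exact h3.deriv

theorem deriv_slice_y (hf : AnalyticAt ℂ f p) : deriv (fun y => f (p.1, y)) p.2 = dy f p := by
  have h1 : HasFDerivAt f (fderiv ℂ f p) (p.1, p.2) := hf.differentiableAt.hasFDerivAt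
  have h2 : HasDerivAt (fun y : ℂ => (p.1, y)) ((0 : ℂ), (1 : ℂ)) p.2 :=
    (hasDerivAt_const p.2 p.1).prodMk (hasDerivAt_id p.2)
  have h3 := h1.comp_hasDerivAt p.2 h2
  exact h3.deriv

theorem iterate_dy_slice (hf : AnalyticAt ℂ f p) (n : ℕ) :
    (dy^[n] f) p = iteratedDeriv n (fun y => f (p.1, y)) p.2 := by
  induction n generalizing p with
  | zero => simp
  | succ n ih =>
    rw [Function.iterate_succ_apply', iteratedDeriv_succ]
    rw [← deriv_slice_y (analyticAt_iterate_dy hf n)]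
    apply Filter.EventuallyEq.deriv_eq
    have hc : Tendsto (fun y : ℂ => (p.1, y)) (𝓝 p.2) (𝓝 p) := by
      have : Continuous (fun y : ℂ => (p.1, y)) := by fun_prop
      exact this.tendsto p.2
    filter_upwards [hc.eventually hf.eventually_analyticAt] with y hy
    exact ih hy

/-- The chain rule in coordinates. -/
private theorem D2_chain {θ : ℂ × ℂ → ℂ × ℂ} {u : ℂ × ℂ} (hθ : AnalyticAt ℂ θ u) (hf : AnalyticAt ℂ f (θ u)) (v : ℂ × ℂ) :
    fderiv ℂ (fun u => f (θ u)) u v =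
      fderiv ℂ f (θ u) (1, 0) * fderiv ℂ (fun u => (θ u).1) u v + fderiv ℂ f (θ u) (0, 1) * fderiv ℂ (fun u => (θ u).2) u v := by
  have h0 := hθ.differentiableAt.hasFDerivAt
  have h1 : HasFDerivAt (fun u => f (θ u)) ((fderiv ℂ f (θ u)).comp (fderiv ℂ θ u)) u :=
    hf.differentiableAt.hasFDerivAt.comp u h0
  have h2 : HasFDerivAt (fun u => (θ u).1) ((ContinuousLinearMap.fst ℂ ℂ ℂ).comp (fderiv ℂ θ u)) u := h0.fst
  have h3 : HasFDerivAt (fun u => (θ u).2) ((ContinuousLinearMap.snd ℂ ℂ ℂ).comp (fderiv ℂ θ u)) u := h0.snd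
  rw [h1.fderiv, h2.fderiv, h3.fderiv]
  simp only [ContinuousLinearMap.comp_apply, ContinuousLinearMap.coe_fst', ContinuousLinearMap.coe_snd']
  set w := fderiv ℂ θ u v with hw
  have hsplit : w = w.1 • ((1 : ℂ), (0 : ℂ)) + w.2 • ((0 : ℂ), (1 : ℂ)) := by
    ext <;> simp
  conv_lhs => rw [hsplit]
  rw [map_add, map_smul, map_smul, smul_eq_mul, smul_eq_mul]
  ring

theorem dx_comp {θ : ℂ × ℂ → ℂ × ℂ} (hθ : AnalyticAt ℂ θ p) (hf : AnalyticAt ℂ f (θ p)) :
    ∀ᶠ u in 𝓝 p, dx (fun u => f (θ u)) u =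
      dx f (θ u) * dx (fun u => (θ u).1) u + dy f (θ u) * dx (fun u => (θ u).2) u := by
  filter_upwards [hθ.eventually_analyticAt, hθ.continuousAt.eventually hf.eventually_analyticAt] with u hu hv
  exact D2_chain hu hv (1, 0)

theorem dy_comp {θ : ℂ × ℂ → ℂ × ℂ} (hθ : AnalyticAt ℂ θ p) (hf : AnalyticAt ℂ f (θ p)) :
    ∀ᶠ u in 𝓝 p, dy (fun u => f (θ u)) u =
      dx f (θ u) * dy (fun u => (θ u).1) u + dy f (θ u) * dy (fun u => (θ u).2) u := by
  filter_upwards [hθ.eventually_analyticAt, hθ.continuousAt.eventually hf.eventually_analyticAt] with u hu hv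
  exact D2_chain hu hv (0, 1)

end Pool.Agent.H68.KR
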